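import Pool.Agent.MDG.Stmts

/-! Row RE5 of the MDG plan: realisation. -/

set_option autoImplicit false

open Finset

namespace Pool.Agent.MDG.H88

open Pool.Agent.HEC Pool.Agent.MDG

variable {V : Type}

theorem cnt_mono {α : Type} [Fintype α] {p q : α → Prop} (h : ∀ a, p a → q a) :
    cnt p ≤ cnt q := by
  classical
  unfold cnt
  apply Finset.card_le_card
  intro a ha
  rw [Finset.mem_filter] at ha ⊢
  exact ⟨ha.1, h a ha.2⟩

theorem cnt_or {α : Type} [Fintype α] (p q : α → Prop) :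
    cnt (fun a => p a ∨ q a) ≤ cnt p + cnt q := by
  unfold cnt
  rw [Finset.card_filter, Finset.card_filter, Finset.card_filter, ← Finset.sum_add_distrib]
  refine Finset.sum_le_sum fun a _ => ?_
  by_cases h1 : p a <;> by_cases h2 : q a <;> simp [h1, h2]

theorem cnt_sum_real [Fintype V] (p : V → V → Prop) (c : ℝ) :
    c * (cnt (fun a : V × V => p a.1 a.2) : ℝ) =
      ∑ u, ∑ v, (by classical exact if p u v then c else 0 : ℝ) := by
  classical
  unfold cnt
  rw [Finset.card_filter, Nat.cast_sum, Finset.mul_sum, Fintype.sum_prod_type]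
  refine Finset.sum_congr rfl fun u _ => Finset.sum_congr rfl fun v _ => ?_
  by_cases h : p u v
  · simp [h]
  · simp [h]

theorem sz_eq [Fintype V] (x : V → V → ℤ) (hx : ∀ u v, -1 ≤ x u v ∧ x u v ≤ 1) :
    (sz x : ℝ) = ((∑ u, ∑ v, |x u v| : ℤ) : ℝ) := by
  classical
  have h := cnt_sum_real (fun u v => x u v ≠ 0) 1
  rw [one_mul] at h
  unfold sz
  rw [h]
  push_cast
  refine Finset.sum_congr rfl fun u _ => Finset.sum_congr rfl fun v _ => ?_
  obtain ⟨h1, h2⟩ := hx u v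
  by_cases h0 : x u v = 0
  · simp [h0]
  · have h3 : x u v = 1 ∨ x u v = -1 := by omega
    rcases h3 with h3 | h3
    · simp [h3]
    · simp [h3]

theorem sz_le [Fintype V] {F : SimpleGraph V} {x : V → V → ℤ} (hx : Lab F x) : sz x ≤ e2 F := by
  unfold sz e2
  apply cnt_mono
  intro a ha
  by_contra hc
  exact ha (hx.supp _ _ hc)

/-- an integral label function with boundary `16 bd f` vanishes on bridges -/
theorem bridge_zero (hSGN : SgnStmt) (hBRY : BryStmt) [Fintype V] {H S : SimpleGraph V}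
    {t : V → Bool} {y f : V → V → ℤ} (hf : Ori S f) (hS : ∀ u v, S.Adj u v → t u = t v)
    (hH : ∀ u v, H.Adj u v → t u ≠ t v) (hy : Lab H y) (hb : ∀ v, bd y v = ((16 : ℕ) : ℤ) * bd f v)
    (hc : ∀ W, 16 * cut S W ≤ cut H W) {u v : V} (h : Bri H u v) : y u v = 0 := by
  classical
  have key : ∀ (W : Finset V) (a b : V), cut H W = 1 → a ∈ W → b ∉ W → H.Adj a b → y a b = 0 := by
    intro W a b h1 ha hb' hab
    have h2 := hBRY V H t (fun a b => (y a b : ℝ)) W a b hH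
      (fun a b => by rw [hy.symm a b]) (fun a b hn => by rw [hy.supp a b hn]; norm_num)
      h1 ha hb' hab
    have h3 : cut S W = 0 := by
      have := hc W
      omega
    have h4 := hSGN V S t f W hf hS
    rw [h3] at h4
    have h5 : ∑ v ∈ W, sg (t v) * bd f v = 0 := by
      rw [← abs_eq_zero]
      exact le_antisymm (by exact_mod_cast h4) (abs_nonneg _)
    have h6 : ∑ a ∈ W, (sg (t a) : ℝ) * bd (fun a b => (y a b : ℝ)) a
        = 16 * ((∑ v ∈ W, sg (t v) * bd f v : ℤ) : ℝ) := by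
      push_cast
      rw [Finset.mul_sum]
      refine Finset.sum_congr rfl fun c _ => ?_
      have h7 : bd (fun a b => (y a b : ℝ)) c = ((bd y c : ℤ) : ℝ) := by
        unfold bd
        push_cast
        rfl
      rw [h7, hb c]
      push_cast
      ring
    rw [h6, h5, Int.cast_zero, mul_zero] at h2
    have h8 : (sg (t a) : ℝ) ≠ 0 := by
      unfold sg
      split_ifs <;> norm_num
    have h9 : (y a b : ℝ) = 0 := by
      rcases mul_eq_zero.1 h2.symm with h | h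
      · exact absurd h h8
      · exact h
    exact_mod_cast h9
  obtain ⟨hadj, W, hW, hcase⟩ := h
  rcases hcase with ⟨hu, hv⟩ | ⟨hu, hv⟩
  · exact key W u v hW hu hv hadj
  · rw [hy.symm u v]
    exact key W v u hW hv hu hadj.symm

theorem re5 (hCP5 : Cp5Stmt) (hCN5 : Cn5Stmt) (hFLO : FloStmt) (hRND : RndStmt)
    (hSGN : SgnStmt) (hBRY : BryStmt) : Re5Stmt := by
  classical
  intro V _ G N b x0 f hx0 hx0' hb0 hsum hf
  have hS1 : ∀ u v, N.S.Adj u v → N.t1 u = N.t1 v := fun u v h => h.1.1.1.1.2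
  have hS2 : ∀ u v, N.S.Adj u v → N.t2 u = N.t2 v := fun u v h => h.1.1.1.2
  have hS3 : ∀ u v, N.S.Adj u v → N.t3 u = N.t3 v := fun u v h => h.1.1.2
  have hS4 : ∀ u v, N.S.Adj u v → N.t4 u = N.t4 v := fun u v h => h.1.2
  have hS5 : ∀ u v, N.S.Adj u v → N.t5 u = N.t5 v := fun u v h => h.2
  have key : ∀ (k : ℕ) (t : V → Bool) (E : SimpleGraph V), (∀ u v, N.S.Adj u v → t u = t v) →
      (∀ u v, E.Adj u v → t u ≠ t v) → (∀ W, k * cut N.S W ≤ cut E W) →
      ∃ x : V → V → ℤ, Lab E x ∧ ∀ v, bd x v = (k : ℤ) * bd f v := by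
    intro k t E h1 h2 h3
    apply hFLO V E t (fun v => (k : ℤ) * bd f v) h2
    intro W
    have h4 := hSGN V N.S t f W hf h1
    have h5 : ∑ v ∈ W, sg (t v) * ((k : ℤ) * bd f v) = (k : ℤ) * ∑ v ∈ W, sg (t v) * bd f v := by
      rw [Finset.mul_sum]
      refine Finset.sum_congr rfl fun v _ => ?_
      ring
    rw [h5, abs_mul]
    have h6 : |(k : ℤ)| = k := abs_of_nonneg (by positivity)
    rw [h6]
    calc (k : ℤ) * |∑ v ∈ W, sg (t v) * bd f v| ≤ (k : ℤ) * (cut N.S W : ℤ) :=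
          mul_le_mul_of_nonneg_left h4 (by positivity)
      _ ≤ (cut E W : ℤ) := by exact_mod_cast h3 W
  obtain ⟨y1, hy1, by1⟩ := key 16 N.t1 N.H hS1 (fun u v h => h.2) (fun W => (hCP5 V G N W).1)
  obtain ⟨x2, hx2, bx2⟩ := key 8 N.t2 N.E2 hS2 (fun u v h => h.2) (fun W => (hCP5 V G N W).2.1)
  obtain ⟨x3, hx3, bx3⟩ := key 4 N.t3 N.E3 hS3 (fun u v h => h.2) (fun W => (hCP5 V G N W).2.2.1)
  obtain ⟨x4, hx4, bx4⟩ := key 2 N.t4 N.E4 hS4 (fun u v h => h.2)
    (fun W => (hCP5 V G N W).2.2.2.1)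
  obtain ⟨x5, hx5, bx5⟩ := key 1 N.t5 N.E5 hS5 (fun u v h => h.2)
    (fun W => by rw [one_mul]; exact (hCP5 V G N W).2.2.2.2.1)
  -- the real function on the first level
  have hy1abs : ∀ u v, |(y1 u v : ℝ)| ≤ 1 := by
    intro u v
    obtain ⟨h1, h2⟩ := hy1.rng u v
    rw [abs_le]
    exact ⟨by exact_mod_cast h1, by exact_mod_cast h2⟩
  have hadd : ∀ u v, |(y1 u v : ℝ) / 8 + x0 u v| ≤ |(y1 u v : ℝ)| / 8 + |x0 u v| := by
    intro u v
    calc |(y1 u v : ℝ) / 8 + x0 u v| ≤ |(y1 u v : ℝ) / 8| + |x0 u v| := abs_add_le _ _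
      _ = |(y1 u v : ℝ)| / 8 + |x0 u v| := by rw [abs_div, abs_of_pos (by norm_num : (0 : ℝ) < 8)]
  have habs : ∀ u v, |(y1 u v : ℝ) / 8 + x0 u v| ≤ 1 := by
    intro u v
    refine (hadd u v).trans ?_
    by_cases hbr : Bri N.H u v
    · have hH : ∀ u v, N.H.Adj u v → N.t1 u ≠ N.t1 v := fun u v h => h.2
      have h0 : y1 u v = 0 := bridge_zero hSGN hBRY hf hS1 hH hy1 by1
        (fun W => (hCP5 V G N W).1) hbr
      rw [h0]
      have h1 := hx0.rng u v
      norm_num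
      exact h1
    · have h1 := hx0' u v hbr
      have h2 := hy1abs u v
      linarith
  have hsupp : ∀ u v, ¬ N.H.Adj u v → (y1 u v : ℝ) / 8 + x0 u v = 0 := by
    intro u v h
    rw [hy1.supp u v h, hx0.supp u v h]
    norm_num
  have hR : RLab N.H 1 (fun u v => (y1 u v : ℝ) / 8 + x0 u v) := by
    refine ⟨?_, hsupp, habs⟩
    intro u v
    show (y1 u v : ℝ) / 8 + x0 u v = (y1 v u : ℝ) / 8 + x0 v u
    rw [hy1.symm u v, hx0.symm u v]
  have hRb : ∀ v, bd (fun u v => (y1 u v : ℝ) / 8 + x0 u v) v = ((b v + 2 * bd f v : ℤ) : ℝ) := by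
    intro v
    have h1 : bd (fun u v => (y1 u v : ℝ) / 8 + x0 u v) v
        = ((bd y1 v : ℤ) : ℝ) / 8 + bd x0 v := by
      unfold bd
      push_cast
      rw [Finset.sum_add_distrib, Finset.sum_div]
    rw [h1, by1, hb0]
    push_cast
    ring
  obtain ⟨x1, hx1, bx1, sx1⟩ := hRND V N.H N.t1 _ (fun v => b v + 2 * bd f v)
    (fun u v h => h.2) hR hRb
  have hs1 : 1000 * sz x1 ≤ 255 * e2 N.H := by
    have h1 : (sz x1 : ℝ) ≤ 1 / 8 * (e2 N.H : ℝ) + ∑ u, ∑ v, |x0 u v| := by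
      rw [sz_eq x1 hx1.rng]
      refine sx1.trans ?_
      unfold e2
      rw [cnt_sum_real (fun u v => N.H.Adj u v) (1 / 8), ← Finset.sum_add_distrib]
      refine Finset.sum_le_sum fun u _ => ?_
      rw [← Finset.sum_add_distrib]
      refine Finset.sum_le_sum fun v _ => ?_
      by_cases h : N.H.Adj u v
      · simp only [h, if_true]
        have h2 := hadd u v
        have h3 := hy1abs u v
        linarith
      · simp only [h, if_false]
        rw [hsupp u v h, abs_zero]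
        have := abs_nonneg (x0 u v)
        linarith
    have h2 : (1000 : ℝ) * (sz x1 : ℝ) ≤ 255 * (e2 N.H : ℝ) := by linarith
    exact_mod_cast h2
  have hs2 := sz_le hx2
  have hs3 := sz_le hx3
  have hs4 := sz_le hx4
  have hs5 := sz_le hx5
  -- supports
  have a1 : ∀ u v, N.H.Adj u v ↔ (G.Adj u v ∧ N.t1 u ≠ N.t1 v) := fun u v => Iff.rfl
  have a2 : ∀ u v, N.E2.Adj u v ↔ ((G.Adj u v ∧ N.t1 u = N.t1 v) ∧ N.t2 u ≠ N.t2 v) :=
    fun u v => Iff.rfl
  have a3 : ∀ u v, N.E3.Adj u v ↔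
      (((G.Adj u v ∧ N.t1 u = N.t1 v) ∧ N.t2 u = N.t2 v) ∧ N.t3 u ≠ N.t3 v) := fun u v => Iff.rfl
  have a4 : ∀ u v, N.E4.Adj u v ↔
      ((((G.Adj u v ∧ N.t1 u = N.t1 v) ∧ N.t2 u = N.t2 v) ∧ N.t3 u = N.t3 v) ∧
        N.t4 u ≠ N.t4 v) := fun u v => Iff.rfl
  have a5 : ∀ u v, N.E5.Adj u v ↔
      (((((G.Adj u v ∧ N.t1 u = N.t1 v) ∧ N.t2 u = N.t2 v) ∧ N.t3 u = N.t3 v) ∧
        N.t4 u = N.t4 v) ∧ N.t5 u ≠ N.t5 v) := fun u v => Iff.rfl
  refine ⟨fun u v => x1 u v + x2 u v + x3 u v + x4 u v + x5 u v, ⟨?_, ?_, ?_⟩, ?_, ?_⟩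
  · intro u v
    show x1 u v + x2 u v + x3 u v + x4 u v + x5 u v = x1 v u + x2 v u + x3 v u + x4 v u + x5 v u
    rw [hx1.symm u v, hx2.symm u v, hx3.symm u v, hx4.symm u v, hx5.symm u v]
  · intro u v h
    show x1 u v + x2 u v + x3 u v + x4 u v + x5 u v = 0
    rw [hx1.supp u v (fun h' => h ((a1 u v).mp h').1),
      hx2.supp u v (fun h' => h ((a2 u v).mp h').1.1),
      hx3.supp u v (fun h' => h ((a3 u v).mp h').1.1.1),
      hx4.supp u v (fun h' => h ((a4 u v).mp h').1.1.1.1),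
      hx5.supp u v (fun h' => h ((a5 u v).mp h').1.1.1.1.1)]
    rfl
  · intro u v
    show -1 ≤ x1 u v + x2 u v + x3 u v + x4 u v + x5 u v ∧
      x1 u v + x2 u v + x3 u v + x4 u v + x5 u v ≤ 1
    by_cases h1 : N.t1 u = N.t1 v
    · have z1 : x1 u v = 0 := hx1.supp u v (fun h' => ((a1 u v).mp h').2 h1)
      by_cases h2 : N.t2 u = N.t2 v
      · have z2 : x2 u v = 0 := hx2.supp u v (fun h' => ((a2 u v).mp h').2 h2)
        by_cases h3 : N.t3 u = N.t3 v
        · have z3 : x3 u v = 0 := hx3.supp u v (fun h' => ((a3 u v).mp h').2 h3)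
          by_cases h4 : N.t4 u = N.t4 v
          · have z4 : x4 u v = 0 := hx4.supp u v (fun h' => ((a4 u v).mp h').2 h4)
            have := hx5.rng u v
            omega
          · have z5 : x5 u v = 0 := hx5.supp u v (fun h' => h4 ((a5 u v).mp h').1.2)
            have := hx4.rng u v
            omega
        · have z4 : x4 u v = 0 := hx4.supp u v (fun h' => h3 ((a4 u v).mp h').1.2)
          have z5 : x5 u v = 0 := hx5.supp u v (fun h' => h3 ((a5 u v).mp h').1.1.2)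
          have := hx3.rng u v
          omega
      · have z3 : x3 u v = 0 := hx3.supp u v (fun h' => h2 ((a3 u v).mp h').1.2)
        have z4 : x4 u v = 0 := hx4.supp u v (fun h' => h2 ((a4 u v).mp h').1.1.2)
        have z5 : x5 u v = 0 := hx5.supp u v (fun h' => h2 ((a5 u v).mp h').1.1.1.2)
        have := hx2.rng u v
        omega
    · have z2 : x2 u v = 0 := hx2.supp u v (fun h' => h1 ((a2 u v).mp h').1.2)
      have z3 : x3 u v = 0 := hx3.supp u v (fun h' => h1 ((a3 u v).mp h').1.1.2)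
      have z4 : x4 u v = 0 := hx4.supp u v (fun h' => h1 ((a4 u v).mp h').1.1.1.2)
      have z5 : x5 u v = 0 := hx5.supp u v (fun h' => h1 ((a5 u v).mp h').1.1.1.1.2)
      have := hx1.rng u v
      omega
  · intro v
    have h1 : bd (fun u v => x1 u v + x2 u v + x3 u v + x4 u v + x5 u v) v
        = bd x1 v + bd x2 v + bd x3 v + bd x4 v + bd x5 v := by
      unfold bd
      rw [Finset.sum_add_distrib, Finset.sum_add_distrib, Finset.sum_add_distrib,
        Finset.sum_add_distrib]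
    rw [h1, bx1, bx2, bx3, bx4, bx5]
    push_cast
    ring
  · have h1 : sz (fun u v => x1 u v + x2 u v + x3 u v + x4 u v + x5 u v)
        ≤ sz x1 + sz x2 + sz x3 + sz x4 + sz x5 := by
      unfold sz
      have e1 : cnt (fun p : V × V =>
            x1 p.1 p.2 + x2 p.1 p.2 + x3 p.1 p.2 + x4 p.1 p.2 + x5 p.1 p.2 ≠ 0)
          ≤ cnt (fun p : V × V => (((x1 p.1 p.2 ≠ 0 ∨ x2 p.1 p.2 ≠ 0) ∨ x3 p.1 p.2 ≠ 0) ∨
            x4 p.1 p.2 ≠ 0) ∨ x5 p.1 p.2 ≠ 0) := by
        apply cnt_mono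
        intro a ha
        by_contra hc
        push Not at hc
        apply ha
        rw [hc.1.1.1.1, hc.1.1.1.2, hc.1.1.2, hc.1.2, hc.2]
        rfl
      have e5 := cnt_or (fun p : V × V => ((x1 p.1 p.2 ≠ 0 ∨ x2 p.1 p.2 ≠ 0) ∨ x3 p.1 p.2 ≠ 0) ∨
        x4 p.1 p.2 ≠ 0) (fun p : V × V => x5 p.1 p.2 ≠ 0)
      have e2' := cnt_or (fun p : V × V => (x1 p.1 p.2 ≠ 0 ∨ x2 p.1 p.2 ≠ 0) ∨ x3 p.1 p.2 ≠ 0)
        (fun p : V × V => x4 p.1 p.2 ≠ 0)
      have e3 := cnt_or (fun p : V × V => x1 p.1 p.2 ≠ 0 ∨ x2 p.1 p.2 ≠ 0)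
        (fun p : V × V => x3 p.1 p.2 ≠ 0)
      have e4 := cnt_or (fun p : V × V => x1 p.1 p.2 ≠ 0) (fun p : V × V => x2 p.1 p.2 ≠ 0)
      exact e1.trans (e5.trans (Nat.add_le_add_right (e2'.trans (Nat.add_le_add_right
        (e3.trans (Nat.add_le_add_right e4 _)) _)) _))
    obtain ⟨c1, c2⟩ := hCN5 V G N
    omega

end Pool.Agent.MDG.H88
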